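import Pool.Agent.X249.PP.Out

/-!
# The pooling problem with out-degrees two: correctness
-/

set_option autoImplicit false

namespace Pool.Agent.X249.PP

open Pool.Agent.NPC Pool.Agent.NPC.H634R2 Finset

/-- The counting argument, for abstract flows: `D` is the dirty flow into the pools, `A`, `B` the
flows of the edge inputs, `Y` the rewarded flow. -/
theorem sound_out {n m k : ℕ} (a b : ℕ → ℕ) (ha : ∀ j < m, a j < n) (hb : ∀ j < m, b j < n)
    (A B X Y Z p D : ℕ → ℝ)
    (hA : ∀ j < m, 0 ≤ A j) (hB : ∀ j < m, 0 ≤ B j) (hY : ∀ l < n, 0 ≤ Y l) (hZ : ∀ l < n, 0 ≤ Z l)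
    (hD : ∀ l < n, D l = (∑ j ∈ range m, if a j = l then A j else 0) +
      ∑ j ∈ range m, if b j = l then B j else 0)
    (hcap : ∀ j < m, A j + B j ≤ 1) (hY1 : ∀ l < n, Y l ≤ 1)
    (hp : ∀ l < n, D l = p l * (Y l + Z l)) (ho : ∀ l < n, p l * Y l ≤ 0)
    (hc : (m + k : ℝ) ≤ (∑ j ∈ range m, (A j + B j)) + ∑ l ∈ range n, Y l) :
    ∃ T : Finset ℕ, (∀ v ∈ T, v < n) ∧ T.card = k ∧ ∀ j < m, ¬ (a j ∈ T ∧ b j ∈ T) := by
  classical
  have hAD : ∀ j < m, A j ≤ D (a j) ∧ B j ≤ D (b j) := by
    intro j hj
    constructor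
    · rw [hD _ (ha j hj)]
      have h1 : A j ≤ ∑ i ∈ range m, if a i = a j then A i else 0 := by
        refine le_trans (by simp) (single_le_sum (f := fun i => if a i = a j then A i else 0)
          (fun i hi => ?_) (mem_range.2 hj))
        split_ifs
        · exact hA i (mem_range.1 hi)
        · exact le_rfl
      have h2 : 0 ≤ ∑ i ∈ range m, if b i = a j then B i else 0 := by
        refine sum_nonneg fun i hi => ?_
        split_ifs
        · exact hB i (mem_range.1 hi)
        · exact le_rfl
      linarith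
    · rw [hD _ (hb j hj)]
      have h1 : B j ≤ ∑ i ∈ range m, if b i = b j then B i else 0 := by
        refine le_trans (by simp) (single_le_sum (f := fun i => if b i = b j then B i else 0)
          (fun i hi => ?_) (mem_range.2 hj))
        split_ifs
        · exact hB i (mem_range.1 hi)
        · exact le_rfl
      have h2 : 0 ≤ ∑ i ∈ range m, if a i = b j then A i else 0 := by
        refine sum_nonneg fun i hi => ?_
        split_ifs
        · exact hA i (mem_range.1 hi)
        · exact le_rfl
      linarith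
  have hD0 : ∀ l < n, 0 ≤ D l := by
    intro l hl
    rw [hD l hl]
    refine add_nonneg (sum_nonneg fun i hi => ?_) (sum_nonneg fun i hi => ?_)
    · split_ifs
      · exact hA i (mem_range.1 hi)
      · exact le_rfl
    · split_ifs
      · exact hB i (mem_range.1 hi)
      · exact le_rfl
  refine exists_IS m a b ((range n).filter (fun l => D l = 0)) (fun v hv =>
    mem_range.1 (mem_filter.1 hv).1) ?_
  have hYs : ∑ l ∈ range n, Y l ≤ ((range n).filter (fun l => D l = 0)).card := by
    rw [card_filter]
    push_cast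
    refine sum_le_sum fun l hl => ?_
    have hl' := mem_range.1 hl
    split_ifs with h0
    · exact hY1 l hl'
    · have h1 : 0 < D l := lt_of_le_of_ne (hD0 l hl') (Ne.symm h0)
      have h2 := hp l hl'
      have h3 := hY l hl'
      have h4 := hZ l hl'
      have h5 : 0 < p l := by
        by_contra hneg
        have : p l * (Y l + Z l) ≤ 0 := mul_nonpos_of_nonpos_of_nonneg (not_lt.1 hneg) (by linarith)
        linarith
      have h6 := ho l hl'
      by_contra hY0
      have : 0 < p l * Y l := mul_pos h5 (not_le.1 hY0)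
      linarith
  have hE : (∑ j ∈ range m, (A j + B j)) +
      ((range m).filter (fun j => a j ∈ (range n).filter (fun l => D l = 0) ∧
        b j ∈ (range n).filter (fun l => D l = 0))).card ≤ m := by
    rw [card_filter]
    push_cast
    rw [← sum_add_distrib]
    calc _ ≤ ∑ j ∈ range m, (1 : ℝ) := ?_
      _ = m := by simp
    refine sum_le_sum fun j hj => ?_
    have hj' := mem_range.1 hj
    split_ifs with h0
    · rw [mem_filter, mem_filter] at h0
      have h1 := (hAD j hj').1
      have h2 := (hAD j hj').2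
      rw [h0.1.2] at h1
      rw [h0.2.2] at h2
      linarith
    · have := hcap j hj'
      linarith
  have h7 : ((k + ((range m).filter (fun j => a j ∈ (range n).filter (fun l => D l = 0) ∧
        b j ∈ (range n).filter (fun l => D l = 0))).card : ℕ) : ℝ) ≤
        (((range n).filter (fun l => D l = 0)).card : ℝ) := by
    push_cast
    linarith
  exact_mod_cast h7

theorem mem_arcsI_out {I : GInst} {a : PArc} : a ∈ (outInst I).arcsI ↔
    (∃ i < nv I, ((i, i), ((0 : ℚ), (1 : ℚ))) = a) ∨ (∃ j < ne I, ((nv I + j, ea I j), ((-1 : ℚ), (1 : ℚ))) = a) ∨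
      ∃ j < ne I, ((nv I + j, eb I j), ((-1 : ℚ), (1 : ℚ))) = a := by
  simp [PInst.arcsI, outInst, rv, re]

theorem mem_arcsJ_out {I : GInst} {a : PArc} : a ∈ (outInst I).arcsJ ↔
    (∃ i < nv I, ((i, i), ((-1 : ℚ), (1 : ℚ))) = a) ∨
      (∃ i < nv I, ((i, nv I + i), ((0 : ℚ), ((2 * ne I + 1 : ℕ) : ℚ))) = a) := by
  simp [PInst.arcsJ, outInst, rv, re]

theorem sumI_out (I : GInst) (c : PArc → Prop) [DecidablePred c] (f : PArc → ℝ) :
    arcSum (outInst I).arcsI c f =
      (∑ i ∈ range (nv I), if c ((i, i), (0, 1)) then f ((i, i), (0, 1)) else 0) +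
      ((∑ j ∈ range (ne I), if c ((nv I + j, ea I j), (-1, 1)) then
        f ((nv I + j, ea I j), (-1, 1)) else 0) +
      ∑ j ∈ range (ne I), if c ((nv I + j, eb I j), (-1, 1)) then
        f ((nv I + j, eb I j), (-1, 1)) else 0) := by
  have : (outInst I).arcsI = (List.range (nv I)).map (fun i => ((i, i), ((0 : ℚ), (1 : ℚ)))) ++
      ((List.range (ne I)).map (fun j => ((nv I + j, ea I j), ((-1 : ℚ), (1 : ℚ)))) ++
      (List.range (ne I)).map (fun j => ((nv I + j, eb I j), ((-1 : ℚ), (1 : ℚ))))) := rfl
  rw [this, arcSum_append, arcSum_append, arcSum_range, arcSum_range, arcSum_range]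

theorem sumJ_out (I : GInst) (c : PArc → Prop) [DecidablePred c] (f : PArc → ℝ) :
    arcSum (outInst I).arcsJ c f =
      (∑ i ∈ range (nv I), if c ((i, i), (-1, 1)) then f ((i, i), (-1, 1)) else 0) +
      ∑ i ∈ range (nv I), if c ((i, nv I + i), (0, ((2 * ne I + 1 : ℕ) : ℚ))) then
        f ((i, nv I + i), (0, ((2 * ne I + 1 : ℕ) : ℚ))) else 0 := by
  have : (outInst I).arcsJ = (List.range (nv I)).map (fun i => ((i, i), ((-1 : ℚ), (1 : ℚ)))) ++
      (List.range (nv I)).map (fun i => ((i, nv I + i), ((0 : ℚ), ((2 * ne I + 1 : ℕ) : ℚ)))) := rfl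
  rw [this, arcSum_append, arcSum_range, arcSum_range]

theorem len_out (I : GInst) : (outInst I).inputs.length = nv I + ne I ∧
    (outInst I).pools.length = nv I ∧ (outInst I).outputs.length = nv I + nv I := by
  simp [PInst.inputs, PInst.pools, PInst.outputs, outInst, rv, re]

theorem inp_out (I : GInst) : (∀ i < nv I, (outInst I).inputs.getD i (0, 0) = (1, 0)) ∧
    (∀ j < ne I, (outInst I).inputs.getD (nv I + j) (0, 0) = (1, 1)) := by
  have : (outInst I).inputs = (List.range (nv I)).map (fun _ => ((1 : ℚ), (0 : ℚ))) ++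
      (List.range (ne I)).map (fun _ => ((1 : ℚ), (1 : ℚ))) := rfl
  rw [this]
  exact ⟨fun i hi => (getD_app _ _ _ _ _).1 hi, fun i hi => (getD_app _ _ _ _ _).2 hi⟩

theorem out_out (I : GInst) : (∀ i < nv I, (outInst I).outputs.getD i (0, 0) = (1, 0)) ∧
    (∀ j < nv I, (outInst I).outputs.getD (nv I + j) (0, 0) = (((2 * ne I + 1 : ℕ) : ℚ), 1)) := by
  have : (outInst I).outputs = (List.range (nv I)).map (fun _ => ((1 : ℚ), (0 : ℚ))) ++
      (List.range (nv I)).map (fun _ => ((((2 * ne I + 1 : ℕ) : ℚ)), (1 : ℚ))) := rfl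
  rw [this]
  exact ⟨fun i hi => (getD_app _ _ _ _ _).1 hi, fun i hi => (getD_app _ _ _ _ _).2 hi⟩

theorem pool_out (I : GInst) {i : ℕ} (hi : i < nv I) :
    (outInst I).pools.getD i 0 = ((2 * ne I + 1 : ℕ) : ℚ) := getD_one _ _ _ hi

theorem valid_out {I : GInst} (h : Norm I) : Valid (outInst I) := by
  obtain ⟨l1, l2, l3⟩ := len_out I
  refine ⟨?_, ?_, ?_, ?_, ?_, ?_, ?_⟩
  · intro v hv
    simp only [PInst.inputs, outInst, List.mem_append, List.mem_map] at hv
    rcases hv with ⟨_, _, rfl⟩ | ⟨_, _, rfl⟩ <;> norm_num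
  · intro v hv
    simp only [PInst.pools, outInst, List.mem_map] at hv
    obtain ⟨_, _, rfl⟩ := hv
    positivity
  · intro v hv
    simp only [PInst.outputs, outInst, List.mem_append, List.mem_map] at hv
    rcases hv with ⟨_, _, rfl⟩ | ⟨_, _, rfl⟩
    · norm_num
    · positivity
  · have : (outInst I).arcsI.map Prod.fst = (List.range (nv I)).map (fun i => (i, i)) ++
      ((List.range (ne I)).map (fun j => (nv I + j, ea I j)) ++
      (List.range (ne I)).map (fun j => (nv I + j, eb I j))) := by
      simp [PInst.arcsI, outInst, rv, re, Function.comp_def]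
    rw [this]
    refine List.Nodup.append (List.nodup_range.map fun i j hij => (Prod.mk.inj hij).1)
      (List.Nodup.append (List.nodup_range.map fun i j hij => by
        have := (Prod.mk.inj hij).1; omega) (List.nodup_range.map fun i j hij => by
        have := (Prod.mk.inj hij).1; omega) ?_) ?_
    · intro x hx hy
      simp only [List.mem_map, List.mem_range] at hx hy
      obtain ⟨i, hi, rfl⟩ := hx
      obtain ⟨j, hj, hij⟩ := hy
      obtain ⟨h1, h2⟩ := Prod.mk.inj hij
      have h3 : i = j := by omega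
      subst h3
      exact (ends_lt h hi).2.2 h2.symm
    · intro x hx hy
      simp only [List.mem_append, List.mem_map, List.mem_range] at hx hy
      obtain ⟨i, hi, rfl⟩ := hx
      rcases hy with ⟨j, hj, hij⟩ | ⟨j, hj, hij⟩ <;>
      · have := (Prod.mk.inj hij).1
        omega
  · have : (outInst I).arcsJ.map Prod.fst = (List.range (nv I)).map (fun i => (i, i)) ++
      (List.range (nv I)).map (fun j => (j, nv I + j)) := by
      simp [PInst.arcsJ, outInst, rv, Function.comp_def]
    rw [this]
    refine List.Nodup.append (List.nodup_range.map fun i j hij => (Prod.mk.inj hij).1)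
      (List.nodup_range.map fun i j hij => (Prod.mk.inj hij).1) ?_
    intro x hx hy
    simp only [List.mem_map, List.mem_range] at hx hy
    obtain ⟨i, hi, rfl⟩ := hx
    obtain ⟨j, hj, hij⟩ := hy
    obtain ⟨h1, h2⟩ := Prod.mk.inj hij
    omega
  · intro a ha
    rw [l1, l2]
    rw [mem_arcsI_out] at ha
    rcases ha with ⟨i, hi, rfl⟩ | ⟨j, hj, rfl⟩ | ⟨j, hj, rfl⟩
    · exact ⟨by simp only; omega, by simpa using hi, by norm_num⟩
    · exact ⟨by simp only; omega, (ends_lt h hj).1, by norm_num⟩
    · exact ⟨by simp only; omega, (ends_lt h hj).2.1, by norm_num⟩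
  · intro a ha
    rw [l3, l2]
    rw [mem_arcsJ_out] at ha
    rcases ha with ⟨i, hi, rfl⟩ | ⟨j, hj, rfl⟩
    · exact ⟨by simpa using hi, by simp only; omega, by norm_num⟩
    · exact ⟨by simpa using hj, by simp only; omega, by positivity⟩

theorem outTwo_out (I : GInst) : OutTwo (outInst I) := by
  constructor
  · intro i _
    have : (outInst I).arcsI = (List.range (nv I)).map (fun i => ((i, i), ((0 : ℚ), (1 : ℚ)))) ++
      ((List.range (ne I)).map (fun j => ((nv I + j, ea I j), ((-1 : ℚ), (1 : ℚ)))) ++
      (List.range (ne I)).map (fun j => ((nv I + j, eb I j), ((-1 : ℚ), (1 : ℚ))))) := rfl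
    rw [this, List.countP_append, List.countP_append, List.countP_map, List.countP_map,
      List.countP_map]
    by_cases hi : i < nv I
    · have h1 := countP_range (nv I) ((fun a : PArc => decide (a.1.1 = i)) ∘ (fun i => ((i, i), ((0 : ℚ), (1 : ℚ)))))
        (by intro i _ j _ h1 h2; simp only [Function.comp, decide_eq_true_eq] at h1 h2; omega)
      have h2 : (List.range (ne I)).countP ((fun a : PArc => decide (a.1.1 = i)) ∘
          (fun j => ((nv I + j, ea I j), ((-1 : ℚ), (1 : ℚ))))) = 0 := by
        rw [List.countP_eq_zero]; intro j _; simp only [Function.comp, decide_eq_true_eq]; omega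
      have h3 : (List.range (ne I)).countP ((fun a : PArc => decide (a.1.1 = i)) ∘
          (fun j => ((nv I + j, eb I j), ((-1 : ℚ), (1 : ℚ))))) = 0 := by
        rw [List.countP_eq_zero]; intro j _; simp only [Function.comp, decide_eq_true_eq]; omega
      omega
    · have h1 : (List.range (nv I)).countP ((fun a : PArc => decide (a.1.1 = i)) ∘ (fun i => ((i, i), ((0 : ℚ), (1 : ℚ))))) = 0 := by
        rw [List.countP_eq_zero]
        intro j hj
        have := List.mem_range.1 hj
        simp only [Function.comp, decide_eq_true_eq]; omega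
      have h2 := countP_range (ne I) ((fun a : PArc => decide (a.1.1 = i)) ∘
          (fun j => ((nv I + j, ea I j), ((-1 : ℚ), (1 : ℚ)))))
        (by intro i _ j _ h1 h2; simp only [Function.comp, decide_eq_true_eq] at h1 h2; omega)
      have h3 := countP_range (ne I) ((fun a : PArc => decide (a.1.1 = i)) ∘
          (fun j => ((nv I + j, eb I j), ((-1 : ℚ), (1 : ℚ)))))
        (by intro i _ j _ h1 h2; simp only [Function.comp, decide_eq_true_eq] at h1 h2; omega)
      omega
  · intro i _
    have : (outInst I).arcsJ = (List.range (nv I)).map (fun i => ((i, i), ((-1 : ℚ), (1 : ℚ)))) ++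
      (List.range (nv I)).map (fun i => ((i, nv I + i), ((0 : ℚ), ((2 * ne I + 1 : ℕ) : ℚ)))) := rfl
    rw [this, List.countP_append, List.countP_map, List.countP_map]
    have h1 := countP_range (nv I) ((fun a : PArc => decide (a.1.1 = i)) ∘
      (fun i => ((i, i), ((-1 : ℚ), (1 : ℚ)))))
      (by intro i _ j _ h1 h2; simp only [Function.comp, decide_eq_true_eq] at h1 h2; omega)
    have h2 := countP_range (nv I) ((fun a : PArc => decide (a.1.1 = i)) ∘
      (fun i => ((i, nv I + i), ((0 : ℚ), ((2 * ne I + 1 : ℕ) : ℚ)))))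
      (by intro i _ j _ h1 h2; simp only [Function.comp, decide_eq_true_eq] at h1 h2; omega)
    omega

end Pool.Agent.X249.PP
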