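import Pool.Agent.X249.IS

/-!
# The pooling problem with one quality
-/

set_option autoImplicit false

namespace Pool.Agent.X249.PP

open Pool.Agent.NPC Pool.Agent.NPC.H634R2

/-- An arc: its tail, its head, its cost and its capacity. -/
abbrev PArc : Type := (ℕ × ℕ) × (ℚ × ℚ)

/-- The data of an instance of the pooling problem with one quality. The inputs, the pools and the
outputs are the positions in three lists, which contain the capacity and the quality of every input,
the capacity of every pool, and the capacity and the quality bound of every output. Then come the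
arcs from inputs to pools and the arcs from pools to outputs, and a number, to be compared with
the minimum cost. -/
abbrev PInst : Type :=
  ((List (ℚ × ℚ) × List ℚ) × List (ℚ × ℚ)) × ((List PArc × List PArc) × ℚ)

namespace PInst

variable (P : PInst)

/-- The inputs. -/
def inputs : List (ℚ × ℚ) := P.1.1.1
/-- The pools. -/
def pools : List ℚ := P.1.1.2
/-- The outputs. -/
def outputs : List (ℚ × ℚ) := P.1.2
/-- The arcs from inputs to pools. -/
def arcsI : List PArc := P.2.1.1
/-- The arcs from pools to outputs. -/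
def arcsJ : List PArc := P.2.1.2
/-- The bound on the cost. -/
def bound : ℚ := P.2.2
/-- The quality of an input. -/
def lam (i : ℕ) : ℚ := (P.inputs.getD i (0, 0)).2
/-- The quality bound of an output. -/
def mu (j : ℕ) : ℚ := (P.outputs.getD j (0, 0)).2

end PInst

/-- The sum of the values of `f` on the arcs of `A` for which `c` holds. -/
noncomputable def arcSum (A : List PArc) (c : PArc → Prop) [DecidablePred c] (f : PArc → ℝ) : ℝ :=
  (A.map (fun a => if c a then f a else 0)).sum

/-- Correct descriptions of instances: all capacities are nonnegative, there are no parallel arcs,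
and the ends of the arcs exist. -/
def Valid (P : PInst) : Prop :=
  (∀ v ∈ P.inputs, 0 ≤ v.1) ∧ (∀ v ∈ P.pools, 0 ≤ v) ∧ (∀ v ∈ P.outputs, 0 ≤ v.1) ∧
  (P.arcsI.map Prod.fst).Nodup ∧ (P.arcsJ.map Prod.fst).Nodup ∧
  (∀ a ∈ P.arcsI, a.1.1 < P.inputs.length ∧ a.1.2 < P.pools.length ∧ 0 ≤ a.2.2) ∧
  (∀ a ∈ P.arcsJ, a.1.1 < P.pools.length ∧ a.1.2 < P.outputs.length ∧ 0 ≤ a.2.2)

/-- `x` is the flow on the arcs from inputs to pools, `y` the flow on the arcs from pools to
outputs, and `p` the quality of the pools; all constraints are satisfied. -/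
def Feasible (P : PInst) (x y : ℕ × ℕ → ℝ) (p : ℕ → ℝ) : Prop :=
  (∀ a ∈ P.arcsI, 0 ≤ x a.1 ∧ x a.1 ≤ a.2.2) ∧ (∀ a ∈ P.arcsJ, 0 ≤ y a.1 ∧ y a.1 ≤ a.2.2) ∧
  (∀ l < P.pools.length, arcSum P.arcsI (fun a => a.1.2 = l) (fun a => x a.1) =
    arcSum P.arcsJ (fun a => a.1.1 = l) (fun a => y a.1)) ∧
  (∀ i < P.inputs.length, arcSum P.arcsI (fun a => a.1.1 = i) (fun a => x a.1) ≤
    (P.inputs.getD i (0, 0)).1) ∧
  (∀ l < P.pools.length, arcSum P.arcsI (fun a => a.1.2 = l) (fun a => x a.1) ≤
    P.pools.getD l 0) ∧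
  (∀ j < P.outputs.length, arcSum P.arcsJ (fun a => a.1.2 = j) (fun a => y a.1) ≤
    (P.outputs.getD j (0, 0)).1) ∧
  (∀ l < P.pools.length, arcSum P.arcsI (fun a => a.1.2 = l) (fun a => P.lam a.1.1 * x a.1) =
    p l * arcSum P.arcsJ (fun a => a.1.1 = l) (fun a => y a.1)) ∧
  (∀ j < P.outputs.length, arcSum P.arcsJ (fun a => a.1.2 = j) (fun a => p a.1.1 * y a.1) ≤
    P.mu j * arcSum P.arcsJ (fun a => a.1.2 = j) (fun a => y a.1))

/-- The cost of a solution. -/
noncomputable def cost (P : PInst) (x y : ℕ × ℕ → ℝ) : ℝ :=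
  arcSum P.arcsI (fun _ => True) (fun a => a.2.1 * x a.1) +
    arcSum P.arcsJ (fun _ => True) (fun a => a.2.1 * y a.1)

/-- Some solution has at most the given cost. -/
def Cheap (P : PInst) : Prop := ∃ x y p, Feasible P x y p ∧ cost P x y ≤ P.bound

/-- The out-degrees of all inputs and pools are at most two. -/
def OutTwo (P : PInst) : Prop :=
  (∀ i < P.inputs.length, P.arcsI.countP (fun a => decide (a.1.1 = i)) ≤ 2) ∧
  ∀ l < P.pools.length, P.arcsJ.countP (fun a => decide (a.1.1 = l)) ≤ 2

/-- The in-degrees of all pools and outputs are at most two. -/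
def InTwo (P : PInst) : Prop :=
  (∀ l < P.pools.length, P.arcsI.countP (fun a => decide (a.1.2 = l)) ≤ 2) ∧
  ∀ j < P.outputs.length, P.arcsJ.countP (fun a => decide (a.1.2 = j)) ≤ 2

/-- The pooling problem with one quality and out-degrees at most two: is there a solution whose
cost is at most the given number? -/
def PoolingOutTwo (P : PInst) : Prop := Valid P ∧ OutTwo P ∧ Cheap P

/-- The pooling problem with one quality and in-degrees at most two. -/
def PoolingInTwo (P : PInst) : Prop := Valid P ∧ InTwo P ∧ Cheap P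

/-! ### Sums over arcs -/

theorem arcSum_append (A B : List PArc) (c : PArc → Prop) [DecidablePred c] (f : PArc → ℝ) :
    arcSum (A ++ B) c f = arcSum A c f + arcSum B c f := by
  simp [arcSum]

theorem arcSum_range (n : ℕ) (φ : ℕ → PArc) (c : PArc → Prop) [DecidablePred c] (f : PArc → ℝ) :
    arcSum ((List.range n).map φ) c f = ∑ i ∈ Finset.range n, if c (φ i) then f (φ i) else 0 := by
  unfold arcSum
  rw [List.map_map, Finset.sum_range]
  induction n with
  | zero => simp
  | succ n ih =>
    rw [List.range_succ, List.map_append, List.sum_append, ih, Fin.sum_univ_castSucc]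
    simp

theorem countP_range (n : ℕ) (c : ℕ → Bool) (h : ∀ i < n, ∀ j < n, c i = true → c j = true → i = j) :
    (List.range n).countP c ≤ 1 := by
  by_contra hc
  rw [not_le, List.countP_eq_length_filter] at hc
  have h1 : ((List.range n).filter c).Nodup := List.nodup_range.filter _
  have h2 := List.getElem_mem (l := (List.range n).filter c) (n := 0) (by omega)
  have h3 := List.getElem_mem (l := (List.range n).filter c) (n := 1) (by omega)
  have h4 := List.mem_filter.1 h2
  have h5 := List.mem_filter.1 h3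
  have h6 := h _ (List.mem_range.1 h4.1) _ (List.mem_range.1 h5.1) h4.2 h5.2
  have := (List.Nodup.getElem_inj_iff h1).1 h6
  omega

/-! ### The combinatorial part -/

/-- From a set of vertices which spans few edges to an independent set. -/
theorem exists_IS {n k : ℕ} (m : ℕ) (a b : ℕ → ℕ) (S : Finset ℕ) (hS : ∀ v ∈ S, v < n)
    (h : k + ((Finset.range m).filter (fun j => a j ∈ S ∧ b j ∈ S)).card ≤ S.card) :
    ∃ T : Finset ℕ, (∀ v ∈ T, v < n) ∧ T.card = k ∧ ∀ j < m, ¬ (a j ∈ T ∧ b j ∈ T) := by
  have h1 : k ≤ (S \ ((Finset.range m).filter (fun j => a j ∈ S ∧ b j ∈ S)).image a).card := by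
    have h2 := Finset.le_card_sdiff (((Finset.range m).filter (fun j => a j ∈ S ∧ b j ∈ S)).image a) S
    have h3 := Finset.card_image_le (s := (Finset.range m).filter (fun j => a j ∈ S ∧ b j ∈ S))
      (f := a)
    omega
  obtain ⟨T, hT, hTc⟩ := Finset.exists_subset_card_eq h1
  refine ⟨T, fun v hv => hS v (Finset.mem_sdiff.1 (hT hv)).1, hTc, ?_⟩
  rintro j hj ⟨h4, h5⟩
  have h6 := Finset.mem_sdiff.1 (hT h4)
  have h7 := Finset.mem_sdiff.1 (hT h5)
  exact h6.2 (Finset.mem_image.2 ⟨j, Finset.mem_filter.2 ⟨Finset.mem_range.2 hj, h6.1, h7.1⟩, rfl⟩)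

end Pool.Agent.X249.PP
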