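import Pool.Agent.X249.PP.Out

/-!
# The pooling problem with in-degrees two: the main equivalence
-/

set_option autoImplicit false

namespace Pool.Agent.X249.PP

open Pool.Agent.NPC Pool.Agent.NPC.H634R2 Finset

/-- The counting argument, for abstract flows: `W` is the dirty flow into the pools, `A`, `B` the
flows into the edge outputs, `Y` the flow into the private outputs. -/
theorem sound_in {n m k : ℕ} (a b : ℕ → ℕ) (ha : ∀ j < m, a j < n) (hb : ∀ j < m, b j < n)
    (A B W Y p D : ℕ → ℝ)
    (hA : ∀ j < m, 0 ≤ A j) (hB : ∀ j < m, 0 ≤ B j) (hY : ∀ l < n, 0 ≤ Y l) (hW : ∀ l < n, 0 ≤ W l)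
    (hD : ∀ l < n, D l = (∑ j ∈ range m, if a j = l then A j else 0) +
      ∑ j ∈ range m, if b j = l then B j else 0)
    (hcap : ∀ j < m, A j + B j ≤ 1) (hW1 : ∀ l < n, W l ≤ 1)
    (hp : ∀ l < n, W l = p l * (Y l + D l)) (ho : ∀ j < m, p (a j) * A j + p (b j) * B j ≤ 0)
    (hc : (m + k : ℝ) ≤ (∑ j ∈ range m, (A j + B j)) + ∑ l ∈ range n, W l) :
    ∃ T : Finset ℕ, (∀ v ∈ T, v < n) ∧ T.card = k ∧ ∀ j < m, ¬ (a j ∈ T ∧ b j ∈ T) := by
  classical
  have hAD : ∀ j < m, A j ≤ D (a j) ∧ B j ≤ D (b j) := by
    intro j hj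
    constructor
    · rw [hD _ (ha j hj)]
      have h1 : A j ≤ ∑ i ∈ range m, if a i = a j then A i else 0 := by
        refine le_trans (by simp) (single_le_sum (f := fun i => if a i = a j then A i else 0)
          (fun i hi => ?_) (mem_range.2 hj))
        split_ifs
        · exact hA i (mem_range.1 hi)
        · exact le_rfl
      have h2 : 0 ≤ ∑ i ∈ range m, if b i = a j then B i else 0 := by
        refine sum_nonneg fun i hi => ?_
        split_ifs
        · exact hB i (mem_range.1 hi)
        · exact le_rfl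
      linarith
    · rw [hD _ (hb j hj)]
      have h1 : B j ≤ ∑ i ∈ range m, if b i = b j then B i else 0 := by
        refine le_trans (by simp) (single_le_sum (f := fun i => if b i = b j then B i else 0)
          (fun i hi => ?_) (mem_range.2 hj))
        split_ifs
        · exact hB i (mem_range.1 hi)
        · exact le_rfl
      have h2 : 0 ≤ ∑ i ∈ range m, if a i = b j then A i else 0 := by
        refine sum_nonneg fun i hi => ?_
        split_ifs
        · exact hA i (mem_range.1 hi)
        · exact le_rfl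
      linarith
  have hD0 : ∀ l < n, 0 ≤ D l := by
    intro l hl
    rw [hD l hl]
    refine add_nonneg (sum_nonneg fun i hi => ?_) (sum_nonneg fun i hi => ?_)
    · split_ifs
      · exact hA i (mem_range.1 hi)
      · exact le_rfl
    · split_ifs
      · exact hB i (mem_range.1 hi)
      · exact le_rfl
  -- a pool with a positive outflow has a nonnegative quality
  have hpq : ∀ l < n, ∀ t : ℝ, 0 ≤ t → t ≤ D l → 0 ≤ p l * t ∧ (0 < W l → p l * t ≤ 0 → t = 0) := by
    intro l hl t ht htD
    have h1 := hp l hl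
    have h2 := hY l hl
    have h3 := hW l hl
    rcases ht.eq_or_lt with h0 | h0
    · rw [← h0]; simp
    · have h4 : 0 < Y l + D l := by linarith
      have h5 : 0 ≤ p l := by
        by_contra hneg
        have : p l * (Y l + D l) < 0 := mul_neg_of_neg_of_pos (not_le.1 hneg) h4
        linarith
      refine ⟨mul_nonneg h5 ht, fun h6 h7 => ?_⟩
      have h8 : 0 < p l := by
        rcases h5.eq_or_lt with h9 | h9
        · rw [← h9, zero_mul] at h1; linarith
        · exact h9
      have : 0 < p l * t := mul_pos h8 h0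
      linarith
  refine exists_IS m a b ((range n).filter (fun l => 0 < W l)) (fun v hv =>
    mem_range.1 (mem_filter.1 hv).1) ?_
  have hYs : ∑ l ∈ range n, W l ≤ ((range n).filter (fun l => 0 < W l)).card := by
    rw [card_filter]
    push_cast
    refine sum_le_sum fun l hl => ?_
    have hl' := mem_range.1 hl
    split_ifs with h0
    · exact hW1 l hl'
    · linarith
  have hE : (∑ j ∈ range m, (A j + B j)) +
      ((range m).filter (fun j => a j ∈ (range n).filter (fun l => 0 < W l) ∧
        b j ∈ (range n).filter (fun l => 0 < W l))).card ≤ m := by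
    rw [card_filter]
    push_cast
    rw [← sum_add_distrib]
    calc _ ≤ ∑ j ∈ range m, (1 : ℝ) := ?_
      _ = m := by simp
    refine sum_le_sum fun j hj => ?_
    have hj' := mem_range.1 hj
    split_ifs with h0
    · rw [mem_filter, mem_filter] at h0
      have h1 := hpq _ (ha j hj') _ (hA j hj') (hAD j hj').1
      have h2 := hpq _ (hb j hj') _ (hB j hj') (hAD j hj').2
      have h3 := ho j hj'
      have h4 := h1.2 h0.1.2 (by linarith [h2.1])
      have h5 := h2.2 h0.2.2 (by linarith [h1.1])
      linarith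
    · have := hcap j hj'
      linarith
  have h7 : ((k + ((range m).filter (fun j => a j ∈ (range n).filter (fun l => 0 < W l) ∧
        b j ∈ (range n).filter (fun l => 0 < W l))).card : ℕ) : ℝ) ≤
        (((range n).filter (fun l => 0 < W l)).card : ℝ) := by
    push_cast
    linarith
  exact_mod_cast h7

theorem mem_arcsI_in {I : GInst} {a : PArc} : a ∈ (inInst I).arcsI ↔
    (∃ i < nv I, ((i, i), ((0 : ℚ), ((2 * ne I + 1 : ℕ) : ℚ))) = a) ∨
      (∃ i < nv I, ((nv I + i, i), ((-1 : ℚ), (1 : ℚ))) = a) := by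
  simp [PInst.arcsI, inInst, rv]

theorem mem_arcsJ_in {I : GInst} {a : PArc} : a ∈ (inInst I).arcsJ ↔
    (∃ i < nv I, ((i, i), ((0 : ℚ), (1 : ℚ))) = a) ∨
    (∃ j < ne I, ((ea I j, nv I + j), ((-1 : ℚ), (1 : ℚ))) = a) ∨
      ∃ j < ne I, ((eb I j, nv I + j), ((-1 : ℚ), (1 : ℚ))) = a := by
  simp [PInst.arcsJ, inInst, rv, re]

theorem arcsI_in (I : GInst) : (inInst I).arcsI =
    (List.range (nv I)).map (fun i => ((i, i), ((0 : ℚ), ((2 * ne I + 1 : ℕ) : ℚ)))) ++
      (List.range (nv I)).map (fun i => ((nv I + i, i), ((-1 : ℚ), (1 : ℚ)))) := rfl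

theorem arcsJ_in (I : GInst) : (inInst I).arcsJ =
    (List.range (nv I)).map (fun i => ((i, i), ((0 : ℚ), (1 : ℚ)))) ++
      ((List.range (ne I)).map (fun j => ((ea I j, nv I + j), ((-1 : ℚ), (1 : ℚ)))) ++
      (List.range (ne I)).map (fun j => ((eb I j, nv I + j), ((-1 : ℚ), (1 : ℚ))))) := rfl

theorem sumJ_in (I : GInst) (c : PArc → Prop) [DecidablePred c] (f : PArc → ℝ) :
    arcSum (inInst I).arcsJ c f =
      (∑ i ∈ range (nv I), if c ((i, i), (0, 1)) then f ((i, i), (0, 1)) else 0) +
      ((∑ j ∈ range (ne I), if c ((ea I j, nv I + j), (-1, 1)) then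
        f ((ea I j, nv I + j), (-1, 1)) else 0) +
      ∑ j ∈ range (ne I), if c ((eb I j, nv I + j), (-1, 1)) then
        f ((eb I j, nv I + j), (-1, 1)) else 0) := by
  rw [arcsJ_in, arcSum_append, arcSum_append, arcSum_range, arcSum_range, arcSum_range]

theorem sumI_in (I : GInst) (c : PArc → Prop) [DecidablePred c] (f : PArc → ℝ) :
    arcSum (inInst I).arcsI c f =
      (∑ i ∈ range (nv I), if c ((i, i), (0, ((2 * ne I + 1 : ℕ) : ℚ))) then
        f ((i, i), (0, ((2 * ne I + 1 : ℕ) : ℚ))) else 0) +
      ∑ i ∈ range (nv I), if c ((nv I + i, i), (-1, 1)) then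
        f ((nv I + i, i), (-1, 1)) else 0 := by
  rw [arcsI_in, arcSum_append, arcSum_range, arcSum_range]

theorem len_in (I : GInst) : (inInst I).inputs.length = nv I + nv I ∧
    (inInst I).pools.length = nv I ∧ (inInst I).outputs.length = nv I + ne I := by
  simp [PInst.inputs, PInst.pools, PInst.outputs, inInst, rv, re]

theorem inp_in (I : GInst) :
    (∀ i < nv I, (inInst I).inputs.getD i (0, 0) = (((2 * ne I + 1 : ℕ) : ℚ), 0)) ∧
    (∀ j < nv I, (inInst I).inputs.getD (nv I + j) (0, 0) = (1, 1)) := by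
  have : (inInst I).inputs =
      (List.range (nv I)).map (fun _ => ((((2 * ne I + 1 : ℕ) : ℚ)), (0 : ℚ))) ++
      (List.range (nv I)).map (fun _ => ((1 : ℚ), (1 : ℚ))) := rfl
  rw [this]
  exact ⟨fun i hi => (getD_app _ _ _ _ _).1 hi, fun i hi => (getD_app _ _ _ _ _).2 hi⟩

theorem out_in (I : GInst) : (∀ i < nv I, (inInst I).outputs.getD i (0, 0) = (1, 1)) ∧
    (∀ j < ne I, (inInst I).outputs.getD (nv I + j) (0, 0) = (1, 0)) := by
  have : (inInst I).outputs = (List.range (nv I)).map (fun _ => ((1 : ℚ), (1 : ℚ))) ++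
      (List.range (ne I)).map (fun _ => ((1 : ℚ), (0 : ℚ))) := rfl
  rw [this]
  exact ⟨fun i hi => (getD_app _ _ _ _ _).1 hi, fun i hi => (getD_app _ _ _ _ _).2 hi⟩

theorem pool_in (I : GInst) {i : ℕ} (hi : i < nv I) :
    (inInst I).pools.getD i 0 = ((2 * ne I + 1 : ℕ) : ℚ) := getD_one _ _ _ hi

theorem valid_in {I : GInst} (h : Norm I) : Valid (inInst I) := by
  obtain ⟨l1, l2, l3⟩ := len_in I
  refine ⟨?_, ?_, ?_, ?_, ?_, ?_, ?_⟩
  · intro v hv
    simp only [PInst.inputs, inInst, List.mem_append, List.mem_map] at hv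
    rcases hv with ⟨_, _, rfl⟩ | ⟨_, _, rfl⟩
    · positivity
    · norm_num
  · intro v hv
    simp only [PInst.pools, inInst, List.mem_map] at hv
    obtain ⟨_, _, rfl⟩ := hv
    positivity
  · intro v hv
    simp only [PInst.outputs, inInst, List.mem_append, List.mem_map] at hv
    rcases hv with ⟨_, _, rfl⟩ | ⟨_, _, rfl⟩ <;> norm_num
  · have : (inInst I).arcsI.map Prod.fst = (List.range (nv I)).map (fun i => (i, i)) ++
      (List.range (nv I)).map (fun j => (nv I + j, j)) := by
      simp [PInst.arcsI, inInst, rv, Function.comp_def]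
    rw [this]
    refine List.Nodup.append (List.nodup_range.map fun i j hij => (Prod.mk.inj hij).1)
      (List.nodup_range.map fun i j hij => (Prod.mk.inj hij).2) ?_
    intro x hx hy
    simp only [List.mem_map, List.mem_range] at hx hy
    obtain ⟨i, hi, rfl⟩ := hx
    obtain ⟨j, hj, hij⟩ := hy
    obtain ⟨h1, h2⟩ := Prod.mk.inj hij
    omega
  · have : (inInst I).arcsJ.map Prod.fst = (List.range (nv I)).map (fun i => (i, i)) ++
      ((List.range (ne I)).map (fun j => (ea I j, nv I + j)) ++
      (List.range (ne I)).map (fun j => (eb I j, nv I + j))) := by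
      simp [PInst.arcsJ, inInst, rv, re, Function.comp_def]
    rw [this]
    refine List.Nodup.append (List.nodup_range.map fun i j hij => (Prod.mk.inj hij).1)
      (List.Nodup.append (List.nodup_range.map fun i j hij => by
        have := (Prod.mk.inj hij).2; omega) (List.nodup_range.map fun i j hij => by
        have := (Prod.mk.inj hij).2; omega) ?_) ?_
    · intro x hx hy
      simp only [List.mem_map, List.mem_range] at hx hy
      obtain ⟨i, hi, rfl⟩ := hx
      obtain ⟨j, hj, hij⟩ := hy
      obtain ⟨h1, h2⟩ := Prod.mk.inj hij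
      have h3 : i = j := by omega
      subst h3
      exact (ends_lt h hi).2.2 h1.symm
    · intro x hx hy
      simp only [List.mem_append, List.mem_map, List.mem_range] at hx hy
      obtain ⟨i, hi, rfl⟩ := hx
      rcases hy with ⟨j, hj, hij⟩ | ⟨j, hj, hij⟩ <;>
      · have := (Prod.mk.inj hij).2
        omega
  · intro a ha
    rw [l1, l2]
    rw [mem_arcsI_in] at ha
    rcases ha with ⟨i, hi, rfl⟩ | ⟨j, hj, rfl⟩
    · exact ⟨by simp only; omega, by simpa using hi, by positivity⟩
    · exact ⟨by simp only; omega, by simpa using hj, by norm_num⟩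
  · intro a ha
    rw [l3, l2]
    rw [mem_arcsJ_in] at ha
    rcases ha with ⟨i, hi, rfl⟩ | ⟨j, hj, rfl⟩ | ⟨j, hj, rfl⟩
    · exact ⟨by simpa using hi, by simp only; omega, by norm_num⟩
    · exact ⟨(ends_lt h hj).1, by simp only; omega, by norm_num⟩
    · exact ⟨(ends_lt h hj).2.1, by simp only; omega, by norm_num⟩

theorem inTwo_in (I : GInst) : InTwo (inInst I) := by
  constructor
  · intro i _
    rw [arcsI_in, List.countP_append, List.countP_map, List.countP_map]
    have h1 := countP_range (nv I) ((fun a : PArc => decide (a.1.2 = i)) ∘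
      (fun i => ((i, i), ((0 : ℚ), ((2 * ne I + 1 : ℕ) : ℚ)))))
      (by intro i _ j _ h1 h2; simp only [Function.comp, decide_eq_true_eq] at h1 h2; omega)
    have h2 := countP_range (nv I) ((fun a : PArc => decide (a.1.2 = i)) ∘
      (fun i => ((nv I + i, i), ((-1 : ℚ), (1 : ℚ)))))
      (by intro i _ j _ h1 h2; simp only [Function.comp, decide_eq_true_eq] at h1 h2; omega)
    omega
  · intro i _
    rw [arcsJ_in, List.countP_append, List.countP_append, List.countP_map, List.countP_map,
      List.countP_map]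
    by_cases hi : i < nv I
    · have h1 := countP_range (nv I) ((fun a : PArc => decide (a.1.2 = i)) ∘
        (fun i => ((i, i), ((0 : ℚ), (1 : ℚ)))))
        (by intro i _ j _ h1 h2; simp only [Function.comp, decide_eq_true_eq] at h1 h2; omega)
      have h2 : (List.range (ne I)).countP ((fun a : PArc => decide (a.1.2 = i)) ∘
          (fun j => ((ea I j, nv I + j), ((-1 : ℚ), (1 : ℚ))))) = 0 := by
        rw [List.countP_eq_zero]; intro j _; simp only [Function.comp, decide_eq_true_eq]; omega
      have h3 : (List.range (ne I)).countP ((fun a : PArc => decide (a.1.2 = i)) ∘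
          (fun j => ((eb I j, nv I + j), ((-1 : ℚ), (1 : ℚ))))) = 0 := by
        rw [List.countP_eq_zero]; intro j _; simp only [Function.comp, decide_eq_true_eq]; omega
      omega
    · have h1 : (List.range (nv I)).countP ((fun a : PArc => decide (a.1.2 = i)) ∘
          (fun i => ((i, i), ((0 : ℚ), (1 : ℚ))))) = 0 := by
        rw [List.countP_eq_zero]
        intro j hj
        have := List.mem_range.1 hj
        simp only [Function.comp, decide_eq_true_eq]; omega
      have h2 := countP_range (ne I) ((fun a : PArc => decide (a.1.2 = i)) ∘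
          (fun j => ((ea I j, nv I + j), ((-1 : ℚ), (1 : ℚ)))))
        (by intro i _ j _ h1 h2; simp only [Function.comp, decide_eq_true_eq] at h1 h2; omega)
      have h3 := countP_range (ne I) ((fun a : PArc => decide (a.1.2 = i)) ∘
          (fun j => ((eb I j, nv I + j), ((-1 : ℚ), (1 : ℚ)))))
        (by intro i _ j _ h1 h2; simp only [Function.comp, decide_eq_true_eq] at h1 h2; omega)
      omega

theorem lam_in (I : GInst) : (∀ i < nv I, (inInst I).lam i = 0) ∧
    (∀ j < nv I, (inInst I).lam (nv I + j) = 1) := by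
  constructor
  · intro i hi; rw [PInst.lam, (inp_in I).1 i hi]
  · intro i hi; rw [PInst.lam, (inp_in I).2 i hi]

theorem mu_in (I : GInst) : (∀ i < nv I, (inInst I).mu i = 1) ∧
    (∀ j < ne I, (inInst I).mu (nv I + j) = 0) := by
  constructor
  · intro i hi; rw [PInst.mu, (out_in I).1 i hi]
  · intro i hi; rw [PInst.mu, (out_in I).2 i hi]

theorem bound_in (I : GInst) : (((inInst I).bound : ℚ) : ℝ) = -((ne I : ℝ) + I.2) := by
  have : (inInst I).bound = -((ne I + I.2 : ℕ) : ℚ) := rfl
  rw [this]; push_cast; ring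

theorem cost_in (I : GInst) (x y : ℕ × ℕ → ℝ) : cost (inInst I) x y =
    -((∑ j ∈ range (ne I), (y (ea I j, nv I + j) + y (eb I j, nv I + j))) +
      ∑ l ∈ range (nv I), x (nv I + l, l)) := by
  rw [cost, sumI_in, sumJ_in, sum_add_distrib]
  simp
  ring

theorem inflow_in (I : GInst) (x : ℕ × ℕ → ℝ) {l : ℕ} (hl : l < nv I) :
    arcSum (inInst I).arcsI (fun a => a.1.2 = l) (fun a => x a.1) = x (l, l) + x (nv I + l, l) := by
  rw [sumI_in]
  simp only [Finset.sum_ite_eq', Finset.mem_range, if_pos hl]

theorem outflow_in (I : GInst) (y : ℕ × ℕ → ℝ) {l : ℕ} (hl : l < nv I) :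
    arcSum (inInst I).arcsJ (fun a => a.1.1 = l) (fun a => y a.1) = y (l, l) +
      ((∑ j ∈ range (ne I), if ea I j = l then y (ea I j, nv I + j) else 0) +
        ∑ j ∈ range (ne I), if eb I j = l then y (eb I j, nv I + j) else 0) := by
  rw [sumJ_in]
  simp only [Finset.sum_ite_eq', Finset.mem_range, if_pos hl]

theorem blend_in (I : GInst) (x : ℕ × ℕ → ℝ) {l : ℕ} (hl : l < nv I) :
    arcSum (inInst I).arcsI (fun a => a.1.2 = l) (fun a => (inInst I).lam a.1.1 * x a.1) =
      x (nv I + l, l) := by
  rw [sumI_in]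
  simp only [Finset.sum_ite_eq', Finset.mem_range, if_pos hl, (lam_in I).1 l hl,
    (lam_in I).2 l hl]
  simp

theorem cap1_in (I : GInst) (x : ℕ × ℕ → ℝ) {i : ℕ} (hi : i < nv I) :
    arcSum (inInst I).arcsI (fun a => a.1.1 = i) (fun a => x a.1) = x (i, i) := by
  rw [sumI_in]
  simp only [Finset.sum_ite_eq', Finset.mem_range, if_pos hi]
  rw [sum_eq_zero (fun j _ => if_neg (by omega))]
  simp

theorem cap2_in (I : GInst) (x : ℕ × ℕ → ℝ) {j : ℕ} (hj : j < nv I) :
    arcSum (inInst I).arcsI (fun a => a.1.1 = nv I + j) (fun a => x a.1) = x (nv I + j, j) := by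
  rw [sumI_in]
  simp only [Nat.add_left_cancel_iff, Finset.sum_ite_eq', Finset.mem_range, if_pos hj]
  rw [if_neg (by omega), zero_add]

theorem oc1_in (I : GInst) (f : PArc → ℝ) {i : ℕ} (hi : i < nv I) :
    arcSum (inInst I).arcsJ (fun a => a.1.2 = i) f = f ((i, i), (0, 1)) := by
  rw [sumJ_in]
  simp only [Finset.sum_ite_eq', Finset.mem_range, if_pos hi]
  rw [sum_eq_zero (fun j _ => if_neg (by omega)), sum_eq_zero (fun j _ => if_neg (by omega))]
  simp

theorem oc2_in (I : GInst) (f : PArc → ℝ) {i : ℕ} (hi : i < ne I) :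
    arcSum (inInst I).arcsJ (fun a => a.1.2 = nv I + i) f =
      f ((ea I i, nv I + i), (-1, 1)) + f ((eb I i, nv I + i), (-1, 1)) := by
  rw [sumJ_in]
  simp only [Nat.add_left_cancel_iff, Finset.sum_ite_eq', Finset.mem_range, if_pos hi]
  rw [if_neg (by omega), zero_add]

theorem corr_in {I : GInst} (h : Norm I) : INDSET I ↔ Cheap (inInst I) := by
  obtain ⟨l1, l2, l3⟩ := len_in I
  rw [indset_iff h]
  constructor
  · rintro ⟨T, hT, hTc, hTi⟩
    obtain ⟨ch, hch⟩ : ∃ ch : ℕ → ℕ, ∀ j, ch j = if ea I j ∈ T then eb I j else ea I j :=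
      ⟨_, fun j => rfl⟩
    have hchT : ∀ j < ne I, ch j ∉ T := by
      intro j hj
      rw [hch]
      split_ifs with h1
      · exact fun h2 => hTi j hj ⟨h1, h2⟩
      · exact h1
    obtain ⟨D, hD⟩ : ∃ D : ℕ → ℝ, ∀ l, D l =
        (∑ j ∈ range (ne I), if ea I j = l then (if ch j = ea I j then (1 : ℝ) else 0) else 0) +
        ∑ j ∈ range (ne I), if eb I j = l then (if ch j = eb I j then (1 : ℝ) else 0) else 0 :=
      ⟨_, fun l => rfl⟩
    obtain ⟨x, hx⟩ : ∃ x : ℕ × ℕ → ℝ, ∀ q, x q = if q.1 < nv I then D q.2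
        else (if q.2 ∈ T then 1 else 0) := ⟨_, fun q => rfl⟩
    obtain ⟨y, hy⟩ : ∃ y : ℕ × ℕ → ℝ, ∀ q, y q = if q.2 < nv I then (if q.1 ∈ T then 1 else 0)
        else (if ch (q.2 - nv I) = q.1 then 1 else 0) := ⟨_, fun q => rfl⟩
    obtain ⟨p, hp⟩ : ∃ p : ℕ → ℝ, ∀ l, p l = if l ∈ T then 1 else 0 := ⟨_, fun q => rfl⟩
    have hx1 : ∀ i < nv I, x (i, i) = D i := fun i hi => by
      rw [hx]; simp [hi]
    have hx2 : ∀ l, x (nv I + l, l) = if l ∈ T then 1 else 0 := fun l => by
      rw [hx]; simp
    have hy1 : ∀ i < nv I, y (i, i) = if i ∈ T then 1 else 0 := fun i hi => by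
      rw [hy]; simp [hi]
    have hy2 : ∀ l j, y (l, nv I + j) = if ch j = l then 1 else 0 := fun l j => by
      rw [hy]; simp
    have hD0 : ∀ l, 0 ≤ D l := fun l => by
      rw [hD]
      refine add_nonneg (sum_nonneg fun j _ => ?_) (sum_nonneg fun j _ => ?_) <;> positivity
    have hD1 : ∀ l, D l ≤ 2 * ne I := fun l => by
      rw [hD]
      have h1 : ∀ e : ℕ → ℕ, (∑ j ∈ range (ne I), if e j = l then
          (if ch j = e j then (1 : ℝ) else 0) else 0) ≤ ne I := by
        intro e
        calc _ ≤ ∑ j ∈ range (ne I), (1 : ℝ) := sum_le_sum fun j _ => by split_ifs <;> norm_num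
          _ = ne I := by simp
      have h2 := h1 (ea I)
      have h3 := h1 (eb I)
      linarith
    have hDT : ∀ l ∈ T, D l = 0 := by
      intro l hl
      rw [hD, sum_eq_zero, sum_eq_zero, add_zero]
      · intro j hj
        split_ifs with h1 h2
        · exfalso
          apply hchT j (mem_range.1 hj)
          rw [h2, h1]; exact hl
        · rfl
        · rfl
      · intro j hj
        split_ifs with h1 h2
        · exfalso
          apply hchT j (mem_range.1 hj)
          rw [h2, h1]; exact hl
        · rfl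
        · rfl
    have hDy : ∀ l, (∑ j ∈ range (ne I), if ea I j = l then y (ea I j, nv I + j) else 0) +
        (∑ j ∈ range (ne I), if eb I j = l then y (eb I j, nv I + j) else 0) = D l := by
      intro l
      rw [hD]
      simp only [hy2]
    have hone : ∀ j < ne I, y (ea I j, nv I + j) + y (eb I j, nv I + j) = 1 := by
      intro j hj
      have hne := (ends_lt h hj).2.2
      rw [hy2, hy2, hch]
      by_cases h1 : ea I j ∈ T
      · simp [h1, hne.symm]
      · simp [h1, hne]
    refine ⟨x, y, p, ⟨?_, ?_, ?_, ?_, ?_, ?_, ?_, ?_⟩, ?_⟩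
    · intro a ha
      rw [mem_arcsI_in] at ha
      rcases ha with ⟨i, hi, rfl⟩ | ⟨j, hj, rfl⟩
      · simp only
        rw [hx1 i hi]
        refine ⟨hD0 i, ?_⟩
        have := hD1 i
        push_cast
        linarith
      · simp only
        rw [hx2]
        split_ifs <;> norm_num
    · intro a ha
      rw [mem_arcsJ_in] at ha
      rcases ha with ⟨i, hi, rfl⟩ | ⟨j, hj, rfl⟩ | ⟨j, hj, rfl⟩
      · simp only
        rw [hy1 i hi]
        split_ifs <;> norm_num
      · simp only
        rw [hy2]
        split_ifs <;> norm_num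
      · simp only
        rw [hy2]
        split_ifs <;> norm_num
    · intro l hl
      rw [l2] at hl
      rw [inflow_in I x hl, outflow_in I y hl, hDy, hx1 l hl, hy1 l hl, hx2, add_comm]
    · intro i hi
      rw [l1] at hi
      rcases lt_or_ge i (nv I) with hi' | hi'
      · rw [cap1_in I x hi', (inp_in I).1 i hi', hx1 i hi']
        have := hD1 i
        push_cast
        linarith
      · obtain ⟨j, rfl⟩ := Nat.exists_eq_add_of_le hi'
        have hj : j < nv I := by omega
        rw [cap2_in I x hj, (inp_in I).2 j hj, hx2]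
        split_ifs <;> norm_num
    · intro l hl
      rw [l2] at hl
      rw [inflow_in I x hl, hx1 l hl, hx2, pool_in I hl]
      have := hD1 l
      push_cast
      split_ifs <;> linarith
    · intro i hi
      rw [l3] at hi
      rcases lt_or_ge i (nv I) with hi' | hi'
      · rw [oc1_in I _ hi', (out_in I).1 i hi']
        simp only
        rw [hy1 i hi']
        split_ifs <;> norm_num
      · obtain ⟨j, rfl⟩ := Nat.exists_eq_add_of_le hi'
        have hj : j < ne I := by omega
        rw [oc2_in I _ hj, (out_in I).2 j hj]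
        simp only
        rw [hone j hj]
        norm_num
    · intro l hl
      rw [l2] at hl
      rw [blend_in I x hl, outflow_in I y hl, hDy, hy1 l hl, hx2, hp]
      by_cases h1 : l ∈ T
      · simp [h1, hDT l h1]
      · simp [h1]
    · intro i hi
      rw [l3] at hi
      rcases lt_or_ge i (nv I) with hi' | hi'
      · rw [oc1_in I _ hi', oc1_in I _ hi', (mu_in I).1 i hi']
        simp only
        rw [hy1 i hi', hp]
        split_ifs <;> norm_num
      · obtain ⟨j, rfl⟩ := Nat.exists_eq_add_of_le hi'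
        have hj : j < ne I := by omega
        rw [oc2_in I _ hj, oc2_in I _ hj, (mu_in I).2 j hj]
        simp only
        have h1 : ∀ v, p v * y (v, nv I + j) = 0 := by
          intro v
          rw [hy2, hp]
          by_cases h2 : ch j = v
          · rw [← h2, if_neg (hchT j hj)]; simp
          · simp [h2]
        rw [h1, h1]
        simp
    · rw [cost_in, bound_in]
      have h1 : ∑ j ∈ range (ne I), (y (ea I j, nv I + j) + y (eb I j, nv I + j)) = ne I := by
        rw [sum_congr rfl (fun j hj => hone j (mem_range.1 hj))]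
        simp
      have h2 : ∑ l ∈ range (nv I), x (nv I + l, l) = I.2 := by
        rw [sum_congr rfl (fun l _ => hx2 l), ← hTc]
        rw [← sum_filter, sum_const, nsmul_eq_mul, mul_one]
        congr 2
        ext v
        simp only [mem_filter, mem_range]
        exact ⟨fun hv => hv.2, fun hv => ⟨hT v hv, hv⟩⟩
      rw [h1, h2]
  · rintro ⟨x, y, p, ⟨hxa, hya, hcons, hci, hcp, hco, hbl, hob⟩, hcost⟩
    refine sound_in (n := nv I) (m := ne I) (ea I) (eb I) (fun j hj => (ends_lt h hj).1)
      (fun j hj => (ends_lt h hj).2.1) (fun j => y (ea I j, nv I + j))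
      (fun j => y (eb I j, nv I + j)) (fun l => x (nv I + l, l)) (fun l => y (l, l)) p (fun l =>
      (∑ j ∈ range (ne I), if ea I j = l then y (ea I j, nv I + j) else 0) +
        ∑ j ∈ range (ne I), if eb I j = l then y (eb I j, nv I + j) else 0) ?_ ?_ ?_ ?_ ?_ ?_ ?_
      ?_ ?_ ?_
    · intro j hj
      exact (hya _ (mem_arcsJ_in.2 (Or.inr (Or.inl ⟨j, hj, rfl⟩)))).1
    · intro j hj
      exact (hya _ (mem_arcsJ_in.2 (Or.inr (Or.inr ⟨j, hj, rfl⟩)))).1
    · intro l hl
      exact (hya _ (mem_arcsJ_in.2 (Or.inl ⟨l, hl, rfl⟩))).1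
    · intro l hl
      exact (hxa _ (mem_arcsI_in.2 (Or.inr ⟨l, hl, rfl⟩))).1
    · intro l hl
      rfl
    · intro j hj
      have := hco (nv I + j) (by rw [l3]; omega)
      rw [oc2_in I _ hj, (out_in I).2 j hj] at this
      simpa using this
    · intro l hl
      have := hci (nv I + l) (by rw [l1]; omega)
      rw [cap2_in I x hl, (inp_in I).2 l hl] at this
      simpa using this
    · intro l hl
      have := hbl l (by rw [l2]; exact hl)
      rw [blend_in I x hl, outflow_in I y hl] at this
      exact this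
    · intro j hj
      have := hob (nv I + j) (by rw [l3]; omega)
      rw [oc2_in I _ hj, oc2_in I _ hj, (mu_in I).2 j hj] at this
      simpa using this
    · rw [cost_in, bound_in] at hcost
      linarith

theorem hard_in : HardI PoolingInTwo := by
  have h1 : HardPr (fun P => Valid P ∧ InTwo P) Cheap :=
    hardPr_IS.trans poly_inInst (fun I hI => ⟨valid_in hI, inTwo_in I⟩)
      (fun I hI => corr_in hI)
  exact (X249.HardPr.and_hardI h1).trans Poly.id (fun P => by
    rw [PoolingInTwo, and_assoc])

end Pool.Agent.X249.PP
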