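import Pool.Agent.X249.PP.CorrOut

/-!
# The pooling problem with out-degrees two: the main equivalence
-/

set_option autoImplicit false

namespace Pool.Agent.X249.PP

open Pool.Agent.NPC Pool.Agent.NPC.H634R2 Finset

theorem lam_out (I : GInst) : (∀ i < nv I, (outInst I).lam i = 0) ∧
    (∀ j < ne I, (outInst I).lam (nv I + j) = 1) := by
  constructor
  · intro i hi; rw [PInst.lam, (inp_out I).1 i hi]
  · intro i hi; rw [PInst.lam, (inp_out I).2 i hi]

theorem mu_out (I : GInst) : (∀ i < nv I, (outInst I).mu i = 0) ∧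
    (∀ j < nv I, (outInst I).mu (nv I + j) = 1) := by
  constructor
  · intro i hi; rw [PInst.mu, (out_out I).1 i hi]
  · intro i hi; rw [PInst.mu, (out_out I).2 i hi]

theorem bound_out (I : GInst) : (((outInst I).bound : ℚ) : ℝ) = -((ne I : ℝ) + I.2) := by
  have : (outInst I).bound = -((ne I + I.2 : ℕ) : ℚ) := rfl
  rw [this]; push_cast; ring

theorem cost_out (I : GInst) (x y : ℕ × ℕ → ℝ) : cost (outInst I) x y =
    -((∑ j ∈ range (ne I), (x (nv I + j, ea I j) + x (nv I + j, eb I j))) +
      ∑ l ∈ range (nv I), y (l, l)) := by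
  rw [cost, sumI_out, sumJ_out, sum_add_distrib]
  simp
  ring

/-- The total flow on the arcs from inputs into a pool. -/
theorem inflow_out (I : GInst) (x : ℕ × ℕ → ℝ) {l : ℕ} (hl : l < nv I) :
    arcSum (outInst I).arcsI (fun a => a.1.2 = l) (fun a => x a.1) = x (l, l) +
      ((∑ j ∈ range (ne I), if ea I j = l then x (nv I + j, ea I j) else 0) +
        ∑ j ∈ range (ne I), if eb I j = l then x (nv I + j, eb I j) else 0) := by
  rw [sumI_out]
  simp only [Finset.sum_ite_eq', Finset.mem_range, if_pos hl]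

theorem outflow_out (I : GInst) (y : ℕ × ℕ → ℝ) {l : ℕ} (hl : l < nv I) :
    arcSum (outInst I).arcsJ (fun a => a.1.1 = l) (fun a => y a.1) =
      y (l, l) + y (l, nv I + l) := by
  rw [sumJ_out]
  simp only [Finset.sum_ite_eq', Finset.mem_range, if_pos hl]

theorem blend_out (I : GInst) (x : ℕ × ℕ → ℝ) {l : ℕ} (hl : l < nv I) :
    arcSum (outInst I).arcsI (fun a => a.1.2 = l) (fun a => (outInst I).lam a.1.1 * x a.1) =
      (∑ j ∈ range (ne I), if ea I j = l then x (nv I + j, ea I j) else 0) +
        ∑ j ∈ range (ne I), if eb I j = l then x (nv I + j, eb I j) else 0 := by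
  rw [sumI_out]
  simp only [Finset.sum_ite_eq', Finset.mem_range, if_pos hl, (lam_out I).1 l hl]
  have h1 : ∀ j ∈ range (ne I), (if ea I j = l then
      (((outInst I).lam (nv I + j) : ℚ) : ℝ) * x (nv I + j, ea I j) else 0) =
      if ea I j = l then x (nv I + j, ea I j) else 0 := by
    intro j hj
    rw [(lam_out I).2 j (mem_range.1 hj)]
    simp
  have h2 : ∀ j ∈ range (ne I), (if eb I j = l then
      (((outInst I).lam (nv I + j) : ℚ) : ℝ) * x (nv I + j, eb I j) else 0) =
      if eb I j = l then x (nv I + j, eb I j) else 0 := by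
    intro j hj
    rw [(lam_out I).2 j (mem_range.1 hj)]
    simp
  rw [sum_congr rfl h1, sum_congr rfl h2]
  simp

theorem cap1_out (I : GInst) (x : ℕ × ℕ → ℝ) {i : ℕ} (hi : i < nv I) :
    arcSum (outInst I).arcsI (fun a => a.1.1 = i) (fun a => x a.1) = x (i, i) := by
  rw [sumI_out]
  simp only [Finset.sum_ite_eq', Finset.mem_range, if_pos hi]
  rw [sum_eq_zero (fun j _ => if_neg (by omega)), sum_eq_zero (fun j _ => if_neg (by omega))]
  simp

theorem cap2_out (I : GInst) (x : ℕ × ℕ → ℝ) {j : ℕ} (hj : j < ne I) :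
    arcSum (outInst I).arcsI (fun a => a.1.1 = nv I + j) (fun a => x a.1) =
      x (nv I + j, ea I j) + x (nv I + j, eb I j) := by
  rw [sumI_out]
  simp only [Nat.add_left_cancel_iff, Finset.sum_ite_eq', Finset.mem_range, if_pos hj]
  rw [if_neg (by omega), zero_add]

theorem oc1_out (I : GInst) (f : PArc → ℝ) {i : ℕ} (hi : i < nv I) :
    arcSum (outInst I).arcsJ (fun a => a.1.2 = i) f = f ((i, i), (-1, 1)) := by
  rw [sumJ_out]
  simp only [Finset.sum_ite_eq', Finset.mem_range, if_pos hi]
  rw [sum_eq_zero (fun j _ => if_neg (by omega))]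
  simp

theorem oc2_out (I : GInst) (f : PArc → ℝ) {i : ℕ} (hi : i < nv I) :
    arcSum (outInst I).arcsJ (fun a => a.1.2 = nv I + i) f =
      f ((i, nv I + i), (0, ((2 * ne I + 1 : ℕ) : ℚ))) := by
  rw [sumJ_out]
  simp only [Nat.add_left_cancel_iff, Finset.sum_ite_eq', Finset.mem_range, if_pos hi]
  rw [if_neg (by omega), zero_add]

theorem corr_out {I : GInst} (h : Norm I) : INDSET I ↔ Cheap (outInst I) := by
  obtain ⟨l1, l2, l3⟩ := len_out I
  rw [indset_iff h]
  constructor
  · rintro ⟨T, hT, hTc, hTi⟩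
    obtain ⟨ch, hch⟩ : ∃ ch : ℕ → ℕ, ∀ j, ch j = if ea I j ∈ T then eb I j else ea I j :=
      ⟨_, fun j => rfl⟩
    have hchT : ∀ j < ne I, ch j ∉ T := by
      intro j hj
      rw [hch]
      split_ifs with h1
      · exact fun h2 => hTi j hj ⟨h1, h2⟩
      · exact h1
    obtain ⟨D, hD⟩ : ∃ D : ℕ → ℝ, ∀ l, D l =
        (∑ j ∈ range (ne I), if ea I j = l then (if ch j = ea I j then (1 : ℝ) else 0) else 0) +
        ∑ j ∈ range (ne I), if eb I j = l then (if ch j = eb I j then (1 : ℝ) else 0) else 0 :=
      ⟨_, fun l => rfl⟩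
    obtain ⟨x, hx⟩ : ∃ x : ℕ × ℕ → ℝ, ∀ q, x q = if q.1 < nv I then (if q.1 ∈ T then 1 else 0)
        else (if ch (q.1 - nv I) = q.2 then 1 else 0) := ⟨_, fun q => rfl⟩
    obtain ⟨y, hy⟩ : ∃ y : ℕ × ℕ → ℝ, ∀ q, y q = if q.2 < nv I then (if q.1 ∈ T then 1 else 0)
        else D q.1 := ⟨_, fun q => rfl⟩
    obtain ⟨p, hp⟩ : ∃ p : ℕ → ℝ, ∀ l, p l = if l ∈ T then 0 else 1 := ⟨_, fun q => rfl⟩
    have hx1 : ∀ i < nv I, x (i, i) = if i ∈ T then 1 else 0 := fun i hi => by
      rw [hx]; simp [hi]
    have hx2 : ∀ j l, x (nv I + j, l) = if ch j = l then 1 else 0 := fun j l => by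
      rw [hx]; simp
    have hy1 : ∀ i < nv I, y (i, i) = if i ∈ T then 1 else 0 := fun i hi => by
      rw [hy]; simp [hi]
    have hy2 : ∀ i, y (i, nv I + i) = D i := fun i => by rw [hy]; simp
    have hD0 : ∀ l, 0 ≤ D l := fun l => by
      rw [hD]
      refine add_nonneg (sum_nonneg fun j _ => ?_) (sum_nonneg fun j _ => ?_) <;> positivity
    have hD1 : ∀ l, D l ≤ 2 * ne I := fun l => by
      rw [hD]
      have h1 : ∀ e : ℕ → ℕ, (∑ j ∈ range (ne I), if e j = l then
          (if ch j = e j then (1 : ℝ) else 0) else 0) ≤ ne I := by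
        intro e
        calc _ ≤ ∑ j ∈ range (ne I), (1 : ℝ) := sum_le_sum fun j _ => by split_ifs <;> norm_num
          _ = ne I := by simp
      have h2 := h1 (ea I)
      have h3 := h1 (eb I)
      linarith
    have hDT : ∀ l ∈ T, D l = 0 := by
      intro l hl
      rw [hD, sum_eq_zero, sum_eq_zero, add_zero]
      · intro j hj
        split_ifs with h1 h2
        · exfalso
          apply hchT j (mem_range.1 hj)
          rw [h2, h1]; exact hl
        · rfl
        · rfl
      · intro j hj
        split_ifs with h1 h2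
        · exfalso
          apply hchT j (mem_range.1 hj)
          rw [h2, h1]; exact hl
        · rfl
        · rfl
    have hDx : ∀ l, (∑ j ∈ range (ne I), if ea I j = l then x (nv I + j, ea I j) else 0) +
        (∑ j ∈ range (ne I), if eb I j = l then x (nv I + j, eb I j) else 0) = D l := by
      intro l
      rw [hD]
      simp only [hx2]
    have hone : ∀ j < ne I, x (nv I + j, ea I j) + x (nv I + j, eb I j) = 1 := by
      intro j hj
      have hne := (ends_lt h hj).2.2
      rw [hx2, hx2, hch]
      by_cases h1 : ea I j ∈ T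
      · simp [h1, hne.symm]
      · simp [h1, hne]
    refine ⟨x, y, p, ⟨?_, ?_, ?_, ?_, ?_, ?_, ?_, ?_⟩, ?_⟩
    · intro a ha
      rw [mem_arcsI_out] at ha
      rcases ha with ⟨i, hi, rfl⟩ | ⟨j, hj, rfl⟩ | ⟨j, hj, rfl⟩
      · simp only
        rw [hx1 i hi]
        split_ifs <;> norm_num
      · simp only
        rw [hx2]
        split_ifs <;> norm_num
      · simp only
        rw [hx2]
        split_ifs <;> norm_num
    · intro a ha
      rw [mem_arcsJ_out] at ha
      rcases ha with ⟨i, hi, rfl⟩ | ⟨j, hj, rfl⟩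
      · simp only
        rw [hy1 i hi]
        split_ifs <;> norm_num
      · simp only
        rw [hy2]
        refine ⟨hD0 j, ?_⟩
        have := hD1 j
        push_cast
        linarith
    · intro l hl
      rw [l2] at hl
      rw [inflow_out I x hl, outflow_out I y hl, hDx, hx1 l hl, hy1 l hl, hy2]
    · intro i hi
      rw [l1] at hi
      rcases lt_or_ge i (nv I) with hi' | hi'
      · rw [cap1_out I x hi', (inp_out I).1 i hi', hx1 i hi']
        split_ifs <;> norm_num
      · obtain ⟨j, rfl⟩ := Nat.exists_eq_add_of_le hi'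
        have hj : j < ne I := by omega
        rw [cap2_out I x hj, (inp_out I).2 j hj, hone j hj]
        norm_num
    · intro l hl
      rw [l2] at hl
      rw [inflow_out I x hl, hDx, hx1 l hl, pool_out I hl]
      have := hD1 l
      push_cast
      split_ifs <;> linarith
    · intro i hi
      rw [l3] at hi
      rcases lt_or_ge i (nv I) with hi' | hi'
      · rw [oc1_out I _ hi', (out_out I).1 i hi']
        simp only
        rw [hy1 i hi']
        split_ifs <;> norm_num
      · obtain ⟨j, rfl⟩ := Nat.exists_eq_add_of_le hi'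
        have hj : j < nv I := by omega
        rw [oc2_out I _ hj, (out_out I).2 j hj]
        simp only
        rw [hy2]
        have := hD1 j
        push_cast
        linarith
    · intro l hl
      rw [l2] at hl
      rw [blend_out I x hl, outflow_out I y hl, hDx, hy1 l hl, hy2, hp]
      by_cases h1 : l ∈ T
      · simp [h1, hDT l h1]
      · simp [h1]
    · intro i hi
      rw [l3] at hi
      rcases lt_or_ge i (nv I) with hi' | hi'
      · rw [oc1_out I _ hi', oc1_out I _ hi', (mu_out I).1 i hi']
        simp only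
        rw [hy1 i hi', hp]
        split_ifs <;> norm_num
      · obtain ⟨j, rfl⟩ := Nat.exists_eq_add_of_le hi'
        have hj : j < nv I := by omega
        rw [oc2_out I _ hj, oc2_out I _ hj, (mu_out I).2 j hj]
        simp only
        rw [hy2, hp]
        have := hD0 j
        split_ifs <;> simp [this]
    · rw [cost_out, bound_out]
      have h1 : ∑ j ∈ range (ne I), (x (nv I + j, ea I j) + x (nv I + j, eb I j)) = ne I := by
        rw [sum_congr rfl (fun j hj => hone j (mem_range.1 hj))]
        simp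
      have h2 : ∑ l ∈ range (nv I), y (l, l) = I.2 := by
        rw [sum_congr rfl (fun l hl => hy1 l (mem_range.1 hl)), ← hTc]
        rw [← sum_filter, sum_const, nsmul_eq_mul, mul_one]
        congr 2
        ext v
        simp only [mem_filter, mem_range]
        exact ⟨fun hv => hv.2, fun hv => ⟨hT v hv, hv⟩⟩
      rw [h1, h2]
  · rintro ⟨x, y, p, ⟨hxa, hya, hcons, hci, hcp, hco, hbl, hob⟩, hcost⟩
    refine sound_out (n := nv I) (m := ne I) (ea I) (eb I) (fun j hj => (ends_lt h hj).1)
      (fun j hj => (ends_lt h hj).2.1) (fun j => x (nv I + j, ea I j))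
      (fun j => x (nv I + j, eb I j)) (fun l => x (l, l)) (fun l => y (l, l))
      (fun l => y (l, nv I + l)) p (fun l =>
      (∑ j ∈ range (ne I), if ea I j = l then x (nv I + j, ea I j) else 0) +
        ∑ j ∈ range (ne I), if eb I j = l then x (nv I + j, eb I j) else 0) ?_ ?_ ?_ ?_ ?_ ?_ ?_
      ?_ ?_ ?_
    · intro j hj
      exact (hxa _ (mem_arcsI_out.2 (Or.inr (Or.inl ⟨j, hj, rfl⟩)))).1
    · intro j hj
      exact (hxa _ (mem_arcsI_out.2 (Or.inr (Or.inr ⟨j, hj, rfl⟩)))).1
    · intro l hl
      exact (hya _ (mem_arcsJ_out.2 (Or.inl ⟨l, hl, rfl⟩))).1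
    · intro l hl
      exact (hya _ (mem_arcsJ_out.2 (Or.inr ⟨l, hl, rfl⟩))).1
    · intro l hl
      rfl
    · intro j hj
      have := hci (nv I + j) (by rw [l1]; omega)
      rw [cap2_out I x hj, (inp_out I).2 j hj] at this
      simpa using this
    · intro l hl
      have := hco l (by rw [l3]; omega)
      rw [oc1_out I _ hl, (out_out I).1 l hl] at this
      simpa using this
    · intro l hl
      have := hbl l (by rw [l2]; exact hl)
      rw [blend_out I x hl, outflow_out I y hl] at this
      exact this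
    · intro l hl
      have := hob l (by rw [l3]; omega)
      rw [oc1_out I _ hl, oc1_out I _ hl, (mu_out I).1 l hl] at this
      simpa using this
    · rw [cost_out, bound_out] at hcost
      linarith

theorem hard_out : HardI PoolingOutTwo := by
  have h1 : HardPr (fun P => Valid P ∧ OutTwo P) Cheap :=
    hardPr_IS.trans poly_outInst (fun I hI => ⟨valid_out hI, outTwo_out I⟩)
      (fun I hI => corr_out hI)
  exact (X249.HardPr.and_hardI h1).trans Poly.id (fun P => by
    rw [PoolingOutTwo, and_assoc])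

end Pool.Agent.X249.PP
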