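import Pool.Agent.X249.PP.Defs

/-!
# The pooling problem with one quality: the instance with out-degrees two
-/

set_option autoImplicit false

namespace Pool.Agent.X249.PP

open Pool.Agent.NPC Pool.Agent.NPC.H634R2

abbrev GInst : Type := (List ℕ × List (ℕ × ℕ)) × ℕ

section
variable {α : Type} [TEnc α]

@[fun_prop]
theorem poly_natCast_rat {f : α → ℕ} (hf : Poly f) : Poly (fun a => ((f a : ℕ) : ℚ)) := by
  have h : Poly (fun a => toT (((f a : ℕ) : ℤ), (1 : ℕ))) :=
    Poly.toT' (by fun_prop)
  refine Poly.of_toT (h.congr fun a => ?_)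
  change toT (((f a : ℕ) : ℤ), (1 : ℕ)) = toT (((f a : ℕ) : ℚ).num, ((f a : ℕ) : ℚ).den)
  simp

@[fun_prop]
theorem poly_neg_natCast_rat {f : α → ℕ} (hf : Poly f) : Poly (fun a => -((f a : ℕ) : ℚ)) := by
  have h : Poly (fun a => toT ((decide (0 < f a), f a), (1 : ℕ))) :=
    Poly.toT' (by fun_prop)
  refine Poly.of_toT (h.congr fun a => ?_)
  change toT ((decide (0 < f a), f a), (1 : ℕ)) =
    toT ((decide ((-((f a : ℕ) : ℚ)).num < 0), (-((f a : ℕ) : ℚ)).num.natAbs),
      (-((f a : ℕ) : ℚ)).den)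
  simp

end

/-- The numbers of vertices and edges. -/
def nv (I : GInst) : ℕ := I.1.1.length
def ne (I : GInst) : ℕ := I.1.2.length
/-- The ends of the edge with number `j`. -/
def ea (I : GInst) (j : ℕ) : ℕ := (I.1.2.getD j (0, 0)).1
def eb (I : GInst) (j : ℕ) : ℕ := (I.1.2.getD j (0, 0)).2

def rv (I : GInst) : List ℕ := List.range (nv I)
def re (I : GInst) : List ℕ := List.range (ne I)

section
variable {α : Type} [TEnc α]

@[fun_prop]
theorem poly_nv {f : α → GInst} (hf : Poly f) : Poly (fun a => nv (f a)) := by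
  unfold nv; fun_prop

@[fun_prop]
theorem poly_ne {f : α → GInst} (hf : Poly f) : Poly (fun a => ne (f a)) := by
  unfold ne; fun_prop

@[fun_prop]
theorem poly_ea {f : α → GInst} {j : α → ℕ} (hf : Poly f) (hj : Poly j) :
    Poly (fun a => ea (f a) (j a)) := by
  unfold ea; fun_prop

@[fun_prop]
theorem poly_eb {f : α → GInst} {j : α → ℕ} (hf : Poly f) (hj : Poly j) :
    Poly (fun a => eb (f a) (j a)) := by
  unfold eb; fun_prop

@[fun_prop]
theorem poly_rv {f : α → GInst} (hf : Poly f) : Poly (fun a => rv (f a)) :=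
  UPoly.range (UPoly.length (Poly.fst (Poly.fst hf)))

@[fun_prop]
theorem poly_re {f : α → GInst} (hf : Poly f) : Poly (fun a => re (f a)) :=
  UPoly.range (UPoly.length (Poly.snd (Poly.fst hf)))

end

theorem ends_lt {I : GInst} (h : Norm I) {j : ℕ} (hj : j < ne I) :
    ea I j < nv I ∧ eb I j < nv I ∧ ea I j ≠ eb I j := by
  have h1 : I.1.2.getD j (0, 0) ∈ I.1.2 := by
    rw [List.getD_eq_getElem _ _ hj]
    exact List.getElem_mem hj
  have h2 := h.1.2.1 _ h1
  refine ⟨?_, ?_, h2.2.2⟩
  · have := h2.1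
    rw [h.2.1, List.mem_range] at this
    exact this
  · have := h2.2.1
    rw [h.2.1, List.mem_range] at this
    exact this

theorem indset_iff {I : GInst} (h : Norm I) : INDSET I ↔ ∃ T : Finset ℕ, (∀ v ∈ T, v < nv I) ∧
    T.card = I.2 ∧ ∀ j < ne I, ¬ (ea I j ∈ T ∧ eb I j ∈ T) := by
  rw [INDSET, and_iff_right h.1, HasIS]
  refine exists_congr fun T => and_congr ?_ (and_congr_right fun _ => ?_)
  · refine forall₂_congr fun v _ => ?_
    rw [h.2.1, List.mem_range]
    rfl
  · constructor
    · intro h1 j hj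
      have h2 : I.1.2.getD j (0, 0) ∈ I.1.2 := by
        rw [List.getD_eq_getElem _ _ hj]
        exact List.getElem_mem hj
      exact h1 _ h2
    · intro h1 e he
      obtain ⟨j, hj, rfl⟩ := List.getElem_of_mem he
      have := h1 j hj
      rwa [ea, eb, List.getD_eq_getElem _ _ hj] at this

theorem getD_app {β : Type} (n m : ℕ) (u v d : β) {i : ℕ} :
    (i < n → (((List.range n).map (fun _ => u)) ++ (List.range m).map (fun _ => v)).getD i d = u) ∧
    (i < m → (((List.range n).map (fun _ => u)) ++ (List.range m).map (fun _ => v)).getD (n + i) d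
      = v) := by
  constructor
  · intro hi
    rw [List.getD_append _ _ _ _ (by simpa using hi), List.getD_eq_getElem _ _ (by simpa using hi)]
    simp
  · intro hi
    rw [List.getD_append_right _ _ _ _ (by simp), List.getD_eq_getElem _ _ (by simpa using hi)]
    simp

theorem getD_one {β : Type} (n : ℕ) (u d : β) {i : ℕ} (hi : i < n) :
    ((List.range n).map (fun _ => u)).getD i d = u := by
  rw [List.getD_eq_getElem _ _ (by simpa using hi)]
  simp

/-- The instance of the pooling problem with out-degrees at most two. -/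
def outInst (I : GInst) : PInst :=
  ((((rv I).map (fun _ => (1, 0)) ++ (re I).map (fun _ => (1, 1)),
    (rv I).map (fun _ => (((2 * ne I + 1 : ℕ) : ℚ)))),
    (rv I).map (fun _ => (1, 0)) ++ (rv I).map (fun _ => ((((2 * ne I + 1 : ℕ) : ℚ)), 1))),
   (((rv I).map (fun i => ((i, i), (0, 1))) ++
      ((re I).map (fun j => ((nv I + j, ea I j), (-1, 1))) ++
      (re I).map (fun j => ((nv I + j, eb I j), (-1, 1)))),
     (rv I).map (fun i => ((i, i), (-1, 1))) ++
      (rv I).map (fun i => ((i, nv I + i), (0, ((2 * ne I + 1 : ℕ) : ℚ))))),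
    -((ne I + I.2 : ℕ) : ℚ)))

theorem poly_outInst : Poly outInst := by
  unfold outInst
  fun_prop

/-- The instance of the pooling problem with in-degrees at most two. -/
def inInst (I : GInst) : PInst :=
  ((((rv I).map (fun _ => ((((2 * ne I + 1 : ℕ) : ℚ)), 0)) ++ (rv I).map (fun _ => (1, 1)),
    (rv I).map (fun _ => (((2 * ne I + 1 : ℕ) : ℚ)))),
    (rv I).map (fun _ => (1, 1)) ++ (re I).map (fun _ => (1, 0))),
   (((rv I).map (fun i => ((i, i), (0, ((2 * ne I + 1 : ℕ) : ℚ)))) ++
      (rv I).map (fun i => ((nv I + i, i), (-1, 1))),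
     (rv I).map (fun i => ((i, i), (0, 1))) ++
      ((re I).map (fun j => ((ea I j, nv I + j), (-1, 1))) ++
      (re I).map (fun j => ((eb I j, nv I + j), (-1, 1))))),
    -((ne I + I.2 : ℕ) : ℚ)))

theorem poly_inInst : Poly inInst := by
  unfold inInst
  fun_prop

end Pool.Agent.X249.PP
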